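import Pool.Agent.L7h93.TH.Stm

set_option autoImplicit false

namespace Pool.Agent.L7h49.TH

open Pool.Agent.L7h93.TH Pool.Agent.Results.MP_e16cda_ag.ThreeMomentsFail Finset

theorem sz_nonneg {g : ℕ} (s : Lat g) : 0 ≤ sz s := Finset.sum_nonneg fun _ _ => abs_nonneg _

theorem norm_dot_le {g : ℕ} (s : Lat g) (x : Sp g) : ‖dot s x‖ ≤ (∑ i, ‖x i‖) * sz s := by
  rw [dot]
  refine (norm_sum_le _ _).trans ?_
  rw [sz, Finset.sum_mul]
  refine Finset.sum_le_sum fun i _ => ?_
  rw [norm_mul, mul_comm, Complex.norm_intCast]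
  refine mul_le_mul_of_nonneg_left ?_ (norm_nonneg _)
  exact Finset.single_le_sum (f := fun i => |(s i : ℝ)|) (fun _ _ => abs_nonneg _)
    (Finset.mem_univ i)

theorem eval_lf {g : ℕ} (x : Sp g) (k : ℕ) (s : Lat g) :
    MvPolynomial.eval (fun i => (s i : ℂ)) (lf x ^ k) = dot s x ^ k := by
  rw [map_pow, lf, map_sum, dot]
  congr 1
  refine Finset.sum_congr rfl fun i _ => ?_
  rw [map_mul, MvPolynomial.eval_C, MvPolynomial.eval_X, mul_comm]

/-- the exponential sum in terms of the moments -/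
theorem Fs_eq {g : ℕ} {p : Lat g → ℂ} (hp : Dec p) (x : Sp g) :
    Fs p x = ∑' k : ℕ, (2 * Real.pi) ^ k / (k.factorial : ℂ) * ml p (lf x ^ k) := by
  set z : Lat g → ℂ := fun s => 2 * Real.pi * dot s x with hz
  set f : Lat g → ℕ → ℂ := fun s k => p s * (z s ^ k / (k.factorial : ℂ)) with hf
  have hzn : ∀ s, ‖z s‖ ≤ (2 * Real.pi * ∑ i, ‖x i‖) * sz s := by
    intro s
    simp only [hz]
    rw [norm_mul, norm_mul, Complex.norm_real, Real.norm_eq_abs, abs_of_pos Real.pi_pos]
    have h4 : ‖(2 : ℂ)‖ = 2 := by simp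
    rw [h4, mul_assoc (2 * Real.pi)]
    exact mul_le_mul_of_nonneg_left (norm_dot_le s x) (by positivity)
  have hfn : ∀ s k, ‖f s k‖ = ‖p s‖ * (‖z s‖ ^ k / (k.factorial : ℝ)) := by
    intro s k
    simp only [hf]
    rw [norm_mul, norm_div, norm_pow, Complex.norm_natCast]
  have hs1 : ∀ s, HasSum (fun k => ‖f s k‖) (‖p s‖ * Real.exp ‖z s‖) := by
    intro s
    have h1 := (NormedSpace.expSeries_div_hasSum_exp (‖z s‖)).mul_left ‖p s‖
    rw [← Real.exp_eq_exp_ℝ] at h1
    have h2 : (fun k => ‖f s k‖) = fun k => ‖p s‖ * (‖z s‖ ^ k / (k.factorial : ℝ)) :=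
      funext fun k => hfn s k
    rw [h2]
    exact h1
  have hsum : Summable (Function.uncurry f) := by
    refine Summable.of_norm ?_
    rw [summable_prod_of_nonneg fun _ => norm_nonneg _]
    refine ⟨fun s => (hs1 s).summable, ?_⟩
    have h3 : (fun s => ∑' k, ‖Function.uncurry f (s, k)‖) = fun s => ‖p s‖ * Real.exp ‖z s‖ :=
      funext fun s => (hs1 s).tsum_eq
    rw [h3]
    refine Summable.of_nonneg_of_le (fun s => by positivity) (fun s => ?_)
      (hp (2 * Real.pi * ∑ i, ‖x i‖))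
    exact mul_le_mul_of_nonneg_left (Real.exp_le_exp.mpr (hzn s)) (norm_nonneg _)
  have hcomm := hsum.tsum_comm
  have hL : ∑' s, ∑' k, f s k = Fs p x := by
    rw [Fs]
    refine tsum_congr fun s => ?_
    simp only [hf]
    rw [tsum_mul_left, (NormedSpace.expSeries_div_hasSum_exp (z s)).tsum_eq,
      ← Complex.exp_eq_exp_ℂ]
  rw [← hL, ← hcomm]
  refine tsum_congr fun k => ?_
  rw [ml, ← tsum_mul_left]
  refine tsum_congr fun s => ?_
  rw [eval_lf]
  simp only [hf, hz]
  rw [mul_pow]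
  ring

theorem Dec.sub {g : ℕ} {p p' : Lat g → ℂ} (hp : Dec p) (hp' : Dec p') :
    Dec fun s => p s - p' s := by
  intro A
  refine Summable.of_nonneg_of_le (fun s => by positivity) (fun s => ?_) ((hp A).add (hp' A))
  rw [← add_mul]
  exact mul_le_mul_of_nonneg_right (norm_sub_le _ _) (Real.exp_nonneg _)

theorem Dec.summable_exp {g : ℕ} {p : Lat g → ℂ} (hp : Dec p) (x : Sp g) :
    Summable fun s => p s * Complex.exp (2 * Real.pi * dot s x) := by
  refine Summable.of_norm_bounded (hp (2 * Real.pi * ∑ i, ‖x i‖)) fun s => ?_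
  rw [norm_mul, Complex.norm_exp]
  refine mul_le_mul_of_nonneg_left (Real.exp_le_exp.mpr ?_) (norm_nonneg _)
  refine (Complex.re_le_norm _).trans ?_
  rw [norm_mul, norm_mul, Complex.norm_real, Real.norm_eq_abs, abs_of_pos Real.pi_pos]
  have h4 : ‖(2 : ℂ)‖ = 2 := by simp
  rw [h4, mul_assoc (2 * Real.pi)]
  exact mul_le_mul_of_nonneg_left (norm_dot_le s x) (by positivity)

/-- all moments determine the coefficients -/
theorem s_ALL (h : S_UNI) : S_ALL := by
  intro g p p' hp hp' hm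
  have h0 := h g (fun s => p s - p' s) (Dec.sub hp hp') fun x => by
    have h1 : Fs (fun s => p s - p' s) x = Fs p x - Fs p' x := by
      rw [Fs, Fs, Fs, ← (Dec.summable_exp hp x).tsum_sub (Dec.summable_exp hp' x)]
      exact tsum_congr fun s => sub_mul _ _ _
    rw [h1, Fs_eq hp, Fs_eq hp', sub_eq_zero]
    exact tsum_congr fun k => by rw [hm]
  funext s
  exact sub_eq_zero.mp (congrFun h0 s)

end Pool.Agent.L7h49.TH
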