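import Pool.Agent.L7h93.TH.Stm

set_option autoImplicit false

namespace Pool.Agent.L7h49.TH

open Pool.Agent.L7h93.TH Pool.Agent.Results.MP_e16cda_ag.ThreeMomentsFail Finset

/-- a positive definite real matrix is bounded below on the unit sphere -/
theorem exists_eps {g : ℕ} (M : Matrix (Fin g) (Fin g) ℝ) (hM : M.PosDef) :
    ∃ ε : ℝ, 0 < ε ∧ ∀ x : Fin g → ℝ, ε * ∑ i, x i ^ 2 ≤ ∑ i, ∑ j, x i * M i j * x j := by
  set q : (Fin g → ℝ) → ℝ := fun x => ∑ i, ∑ j, x i * M i j * x j with hq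
  have hpos : ∀ x : Fin g → ℝ, x ≠ 0 → 0 < q x := by
    intro x hx
    have h := hM.dotProduct_mulVec_pos hx
    have e : star x ⬝ᵥ (M.mulVec x) = q x := by
      simp only [hq, dotProduct, Matrix.mulVec, Finset.mul_sum, star_trivial, mul_assoc]
    rwa [e] at h
  have hqc : Continuous q := by
    simp only [hq]
    fun_prop
  have hscale : ∀ (a : ℝ) (x : Fin g → ℝ), q (a • x) = a ^ 2 * q x := by
    intro a x
    simp only [hq, Finset.mul_sum, Pi.smul_apply, smul_eq_mul]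
    refine Finset.sum_congr rfl fun i _ => Finset.sum_congr rfl fun j _ => ?_
    ring
  set K : Set (Fin g → ℝ) := {x | ∑ i, x i ^ 2 = 1} with hK
  have hKc : IsCompact K := by
    refine Metric.isCompact_of_isClosed_isBounded ?_ ?_
    · refine isClosed_eq ?_ continuous_const
      fun_prop
    · refine (Metric.isBounded_closedBall (x := (0 : Fin g → ℝ)) (r := 1)).subset ?_
      intro x hx
      rw [mem_closedBall_zero_iff, pi_norm_le_iff_of_nonneg zero_le_one]
      intro i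
      rw [Real.norm_eq_abs]
      have h1 : x i ^ 2 ≤ 1 := by
        have : x i ^ 2 ≤ ∑ i, x i ^ 2 :=
          Finset.single_le_sum (f := fun i => x i ^ 2) (fun j _ => sq_nonneg (x j))
            (Finset.mem_univ i)
        rw [hK, Set.mem_setOf_eq] at hx
        linarith
      exact abs_le_one_iff_mul_self_le_one.mpr (by nlinarith)
  have key : ∃ ε : ℝ, 0 < ε ∧ ∀ x ∈ K, ε ≤ q x := by
    rcases K.eq_empty_or_nonempty with hE | hN
    · exact ⟨1, one_pos, fun x hx => absurd hx (by rw [hE]; exact Set.notMem_empty x)⟩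
    · obtain ⟨x₀, hx₀, hmin⟩ := hKc.exists_isMinOn hN hqc.continuousOn
      refine ⟨q x₀, hpos x₀ ?_, fun x hx => hmin hx⟩
      rintro rfl
      rw [hK, Set.mem_setOf_eq] at hx₀
      simp at hx₀
  obtain ⟨ε, hε, hle⟩ := key
  refine ⟨ε, hε, fun x => ?_⟩
  change ε * ∑ i, x i ^ 2 ≤ q x
  set S : ℝ := ∑ i, x i ^ 2 with hS
  have hS0 : 0 ≤ S := Finset.sum_nonneg fun i _ => sq_nonneg (x i)
  rcases hS0.eq_or_lt with h0 | h0
  · have hx : x = 0 := by
      funext i
      have := (Finset.sum_eq_zero_iff_of_nonneg (s := Finset.univ) (f := fun i => x i ^ 2)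
        (fun j _ => sq_nonneg (x j))).mp h0.symm i (Finset.mem_univ i)
      exact pow_eq_zero_iff (two_ne_zero) |>.mp this
    rw [← h0, hx]
    have : q 0 = 0 := by simp [hq]
    rw [this, mul_zero]
  · set a : ℝ := (Real.sqrt S)⁻¹ with ha
    have hsq : Real.sqrt S ^ 2 = S := Real.sq_sqrt hS0
    have ha2 : a ^ 2 = S⁻¹ := by rw [ha, inv_pow, hsq]
    have hmem : a • x ∈ K := by
      rw [hK, Set.mem_setOf_eq]
      have : ∀ i, (a • x) i ^ 2 = a ^ 2 * x i ^ 2 := fun i => by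
        rw [Pi.smul_apply, smul_eq_mul, mul_pow]
      rw [Finset.sum_congr rfl fun i _ => this i, ← Finset.mul_sum, ← hS, ha2]
      exact inv_mul_cancel₀ h0.ne'
    have h2 := hle _ hmem
    rw [hscale, ha2] at h2
    have h3 : ε * S ≤ S⁻¹ * q x * S := mul_le_mul_of_nonneg_right h2 hS0
    have h4 : S⁻¹ * q x * S = q x := by
      field_simp
    rwa [h4] at h3

theorem Q_re {g : ℕ} (B : Matrix (Fin g) (Fin g) ℂ) (s : Lat g) :
    (Q B s).re = ∑ i, ∑ j, (s i : ℝ) * (B.map Complex.re) i j * (s j : ℝ) := by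
  rw [Q, Complex.re_sum]
  refine Finset.sum_congr rfl fun i _ => ?_
  rw [Complex.re_sum]
  refine Finset.sum_congr rfl fun j _ => ?_
  simp [Complex.mul_re]

/-- quasi-periodic coefficients grow at most exponentially -/
theorem QP_bound {g : ℕ} {n : ℕ} (hn : 1 ≤ n) {t : Sp g} {C : Lat g → ℂ} (h : QP n t C) :
    ∃ M b : ℝ, 0 ≤ M ∧ 0 ≤ b ∧ ∀ s, ‖C s‖ ≤ M * Real.exp (b * sz s) := by
  set M : ℝ := ∑ r ∈ Fintype.piFinset (fun _ : Fin g => Finset.Ico (0 : ℤ) n), ‖C r‖ with hM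
  set T : ℝ := ∑ i, ‖t i‖ with hT
  have hM0 : 0 ≤ M := Finset.sum_nonneg fun _ _ => norm_nonneg _
  have hT0 : 0 ≤ T := Finset.sum_nonneg fun _ _ => norm_nonneg _
  refine ⟨M, 2 * Real.pi * T, hM0, by positivity, fun s => ?_⟩
  have hn0 : (0 : ℤ) < n := by exact_mod_cast hn
  set r : Lat g := fun i => s i % n with hr
  set k : Lat g := fun i => s i / n with hk
  have hs : s = r + (n : ℤ) • k := by
    funext i
    simp only [Pi.add_apply, Pi.smul_apply, smul_eq_mul, hr, hk]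
    exact (Int.emod_add_mul_ediv (s i) n).symm
  have h1 : C s = Complex.exp (2 * Real.pi * dot k t) * C r := by
    conv_lhs => rw [hs]
    exact h r k
  have hr1 : ‖C r‖ ≤ M := by
    refine Finset.single_le_sum (f := fun r => ‖C r‖) (fun _ _ => norm_nonneg _) ?_
    rw [Fintype.mem_piFinset]
    intro i
    rw [Finset.mem_Ico]
    exact ⟨Int.emod_nonneg _ hn0.ne', Int.emod_lt_of_pos _ hn0⟩
  have hdot : ‖dot k t‖ ≤ T * sz s := by
    rw [dot]
    refine (norm_sum_le _ _).trans ?_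
    rw [hT, sz, Finset.sum_mul]
    refine Finset.sum_le_sum fun i _ => ?_
    rw [norm_mul, mul_comm]
    refine mul_le_mul_of_nonneg_left ?_ (norm_nonneg _)
    rw [Complex.norm_intCast]
    have h2 : |(k i : ℝ)| ≤ |(s i : ℝ)| := by
      have := Int.abs_ediv_le_abs (s i) n
      exact_mod_cast this
    refine h2.trans ?_
    exact Finset.single_le_sum (f := fun i => |(s i : ℝ)|) (fun _ _ => abs_nonneg _)
      (Finset.mem_univ i)
  rw [h1, norm_mul, Complex.norm_exp, mul_comm]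
  refine mul_le_mul hr1 ?_ (Real.exp_nonneg _) hM0
  rw [Real.exp_le_exp]
  have h3 : (2 * (Real.pi : ℂ) * dot k t).re ≤ ‖2 * (Real.pi : ℂ) * dot k t‖ := Complex.re_le_norm _
  refine h3.trans ?_
  rw [norm_mul, norm_mul, Complex.norm_real, Real.norm_eq_abs, abs_of_pos Real.pi_pos]
  have h4 : ‖(2 : ℂ)‖ = 2 := by simp
  rw [h4, mul_assoc (2 * Real.pi)]
  exact mul_le_mul_of_nonneg_left hdot (by positivity)

theorem summable_one (D κ : ℝ) (hκ : 0 < κ) :
    Summable fun m : ℤ => Real.exp (D * |(m : ℝ)| - κ * (m : ℝ) ^ 2) := by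
  have hb : ∀ m : ℤ, Real.exp (D * |(m : ℝ)| - κ * (m : ℝ) ^ 2) ≤
      Real.exp ((D + 1) ^ 2 / (4 * κ)) * Real.exp (-|(m : ℝ)|) := by
    intro m
    rw [← Real.exp_add, Real.exp_le_exp]
    have h1 : (m : ℝ) ^ 2 = |(m : ℝ)| ^ 2 := (sq_abs _).symm
    rw [h1]
    set y := |(m : ℝ)|
    have h2 : (D + 1) ^ 2 / (4 * κ) + κ * y ^ 2 - (D + 1) * y =
        ((D + 1) - 2 * κ * y) ^ 2 / (4 * κ) := by
      field_simp
      ring
    have h3 : 0 ≤ ((D + 1) - 2 * κ * y) ^ 2 / (4 * κ) := by positivity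
    linarith
  refine Summable.of_nonneg_of_le (fun _ => Real.exp_nonneg _) hb (Summable.mul_left _ ?_)
  apply Summable.of_nat_of_neg
  · refine Real.summable_exp_neg_nat.congr fun n => ?_
    simp
  · refine Real.summable_exp_neg_nat.congr fun n => ?_
    simp

/-- the coefficients of theta functions decay fast -/
theorem s_DEC : S_DEC := by
  intro g B hB n hn t C hC A
  obtain ⟨ε, hε, hle⟩ := exists_eps _ hB.2
  obtain ⟨M, b, hM, hb, hMb⟩ := QP_bound hn hC
  have hn0 : (0 : ℝ) < n := by exact_mod_cast hn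
  set κ : ℝ := Real.pi * ε / n with hκ
  have hκ0 : 0 < κ := by positivity
  set F : Fin g → ℤ → ℂ := fun _ m =>
    ((Real.exp ((A + b) * |(m : ℝ)| - κ * (m : ℝ) ^ 2) : ℝ) : ℂ) with hF
  have hFs : ∀ i, Summable fun m => ‖F i m‖ := by
    intro i
    have := summable_one (A + b) κ hκ0
    refine this.congr fun m => ?_
    simp only [hF]
    rw [Complex.norm_real, Real.norm_eq_abs, abs_of_nonneg (Real.exp_nonneg _)]
  have hS := (prod_sum g F hFs).1
  refine Summable.of_nonneg_of_le (fun s => by positivity) (fun s => ?_) (hS.mul_left M)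
  have hprod : ‖∏ i, F i (s i)‖ = Real.exp (∑ i, ((A + b) * |(s i : ℝ)| - κ * (s i : ℝ) ^ 2)) := by
    rw [Real.exp_sum, norm_prod]
    refine Finset.prod_congr rfl fun i _ => ?_
    simp only [hF]
    rw [Complex.norm_real, Real.norm_eq_abs, abs_of_nonneg (Real.exp_nonneg _)]
  rw [hprod, co, norm_mul, Complex.norm_exp]
  have h1 : (-((Real.pi : ℂ) / n) * Q B s).re = -(Real.pi / n) * (Q B s).re := by
    have : (-((Real.pi : ℂ) / n)) = ((-(Real.pi / n) : ℝ) : ℂ) := by push_cast; ring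
    rw [this, Complex.re_ofReal_mul]
  have h2 : -(Real.pi / n) * (Q B s).re ≤ - κ * ∑ i, (s i : ℝ) ^ 2 := by
    have h3 := hle fun i => (s i : ℝ)
    rw [← Q_re] at h3
    have h4 : Real.pi / n * (ε * ∑ i, (s i : ℝ) ^ 2) ≤ Real.pi / n * (Q B s).re :=
      mul_le_mul_of_nonneg_left h3 (by positivity)
    have h5 : κ * ∑ i, (s i : ℝ) ^ 2 = Real.pi / n * (ε * ∑ i, (s i : ℝ) ^ 2) := by
      rw [hκ]; ring
    linarith
  have h6 : Real.exp (-((Real.pi : ℂ) / n) * Q B s).re ≤ Real.exp (- κ * ∑ i, (s i : ℝ) ^ 2) := by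
    rw [h1]
    exact Real.exp_le_exp.mpr h2
  have h7 : ∑ i, ((A + b) * |(s i : ℝ)| - κ * (s i : ℝ) ^ 2) =
      b * sz s + (- κ * ∑ i, (s i : ℝ) ^ 2) + A * sz s := by
    rw [Finset.sum_sub_distrib, ← Finset.mul_sum, ← Finset.mul_sum, sz]
    ring
  rw [h7, Real.exp_add, Real.exp_add]
  calc ‖C s‖ * Real.exp (-((Real.pi : ℂ) / n) * Q B s).re * Real.exp (A * sz s)
      ≤ (M * Real.exp (b * sz s)) * Real.exp (- κ * ∑ i, (s i : ℝ) ^ 2) *
        Real.exp (A * sz s) := by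
        refine mul_le_mul_of_nonneg_right ?_ (Real.exp_nonneg _)
        exact mul_le_mul (hMb s) h6 (Real.exp_nonneg _) (mul_nonneg hM (Real.exp_nonneg _))
    _ = _ := by ring

end Pool.Agent.L7h49.TH
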