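import Pool.Agent.L7h93.TH.Stm

set_option autoImplicit false

namespace Pool.Agent.L7h49.TH

open Pool.Agent.L7h93.TH Pool.Agent.Results.MP_e16cda_ag.ThreeMomentsFail Finset
open MeasureTheory UnitAddTorus

/-- the measure on the circle -/
noncomputable local instance : MeasureSpace UnitAddCircle := ⟨AddCircle.haarAddCircle⟩

local instance : Measure.IsAddHaarMeasure (volume : Measure UnitAddCircle) :=
  inferInstanceAs (Measure.IsAddHaarMeasure AddCircle.haarAddCircle)

local instance : IsProbabilityMeasure (volume : Measure UnitAddCircle) :=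
  inferInstanceAs (IsProbabilityMeasure AddCircle.haarAddCircle)

/-- fast decaying coefficients are absolutely summable -/
theorem Dec.summable_norm {g : ℕ} {c : Lat g → ℂ} (h : Dec c) : Summable fun s => ‖c s‖ := by
  have := h 0
  simpa only [zero_mul, Real.exp_zero, mul_one] using this

theorem mF_eval {g : ℕ} (s : Lat g) (y : Fin g → ℝ) :
    mFourier s (fun i => ((y i : ℝ) : UnitAddCircle)) =
      Complex.exp (2 * Real.pi * dot s fun i => Complex.I * (y i : ℂ)) := by
  have : mFourier s (fun i => ((y i : ℝ) : UnitAddCircle)) =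
      ∏ i, fourier (s i) ((y i : ℝ) : UnitAddCircle) := rfl
  rw [this, dot, Finset.mul_sum, Complex.exp_sum]
  refine Finset.prod_congr rfl fun i _ => ?_
  rw [fourier_coe_apply]
  congr 1
  push_cast
  ring

/-- uniqueness -/
theorem s_UNI : S_UNI := by
  intro g c hc hF
  have hsn := Dec.summable_norm hc
  set f : Lat g → C(UnitAddTorus (Fin g), ℂ) := fun s => c s • mFourier s with hf
  have hfs : Summable f := by
    refine Summable.of_norm ?_
    have : (fun s => ‖f s‖) = fun s => ‖c s‖ := by
      funext s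
      rw [hf]
      simp only [norm_smul, mFourier_norm, mul_one]
    rw [this]
    exact hsn
  have hzero : ∑' s, f s = 0 := by
    ext x
    obtain ⟨y, rfl⟩ : ∃ y : Fin g → ℝ, x = fun i => ((y i : ℝ) : UnitAddCircle) := by
      have : ∀ i, ∃ y : ℝ, (y : UnitAddCircle) = x i := fun i =>
        QuotientAddGroup.mk_surjective (x i)
      choose y hy using this
      exact ⟨y, funext fun i => (hy i).symm⟩
    have h1 := (ContinuousMap.evalCLM ℂ
      (fun i => ((y i : ℝ) : UnitAddCircle) : UnitAddTorus (Fin g))).hasSum hfs.hasSum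
    have h2 : (∑' s, f s) (fun i => ((y i : ℝ) : UnitAddCircle)) =
        ∑' s, (f s) (fun i => ((y i : ℝ) : UnitAddCircle)) := h1.tsum_eq.symm
    rw [h2]
    have h3 := hF fun i => Complex.I * (y i : ℂ)
    rw [Fs] at h3
    have h4 : (fun s => (f s) (fun i => ((y i : ℝ) : UnitAddCircle))) =
        fun s => c s * Complex.exp (2 * Real.pi * dot s fun i => Complex.I * (y i : ℂ)) := by
      funext s
      rw [← mF_eval]
      rfl
    rw [h4, h3]
    rfl
  have hL := (ContinuousMap.toLp (E := ℂ) 2 (volume : Measure (UnitAddTorus (Fin g))) ℂ).hasSum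
    hfs.hasSum
  rw [hzero, map_zero] at hL
  funext s₀
  have h5 := (innerSL ℂ (mFourierLp (d := Fin g) 2 s₀)).hasSum hL
  rw [map_zero] at h5
  have h6 : ∀ s, (innerSL ℂ (mFourierLp (d := Fin g) 2 s₀))
      ((ContinuousMap.toLp (E := ℂ) 2 (volume : Measure (UnitAddTorus (Fin g))) ℂ) (f s)) =
      if s = s₀ then c s₀ else 0 := by
    intro s
    have h7 : (ContinuousMap.toLp (E := ℂ) 2 (volume : Measure (UnitAddTorus (Fin g))) ℂ) (f s) =
        c s • mFourierLp (d := Fin g) 2 s := by
      rw [hf]
      exact map_smul _ _ _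
    rw [h7, map_smul, innerSL_apply_apply,
      (orthonormal_iff_ite.mp (orthonormal_mFourier (d := Fin g))) s₀ s]
    by_cases hs : s = s₀
    · simp [hs]
    · rw [if_neg fun h : s₀ = s => hs h.symm, if_neg hs, smul_zero]
  have h8 : HasSum (fun s => if s = s₀ then c s₀ else 0) (0 : ℂ) := by
    have h10 : (fun s => if s = s₀ then c s₀ else 0) = fun s =>
        (innerSL ℂ (mFourierLp (d := Fin g) 2 s₀))
      ((ContinuousMap.toLp (E := ℂ) 2 (volume : Measure (UnitAddTorus (Fin g))) ℂ) (f s)) :=
      funext fun s => (h6 s).symm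
    rw [h10]
    exact h5
  have h9 := (hasSum_ite_eq s₀ (c s₀)).unique h8
  rw [h9]
  rfl

end Pool.Agent.L7h49.TH
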