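import Pool.Agent.L7h93.TH.Stm

set_option autoImplicit false

namespace Pool.Agent.L7h49.TH

open Pool.Agent.L7h93.TH Pool.Agent.Results.MP_e16cda_ag.ThreeMomentsFail Finset

/-- no zero divisors -/
theorem s_ZD : S_ZD := by
  intro g f h hf hh hprod
  by_contra hcon
  rw [not_or] at hcon
  obtain ⟨h1, h2⟩ := hcon
  rw [not_forall] at h1 h2
  obtain ⟨x₁, hx₁⟩ := h1
  obtain ⟨x₂, hx₂⟩ := h2
  set F : ℂ → ℂ := fun t => f (x₁ + t • (x₂ - x₁)) with hF
  set H : ℂ → ℂ := fun t => h (x₁ + t • (x₂ - x₁)) with hH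
  have dF : Differentiable ℂ F := hf x₁ (x₂ - x₁)
  have dH : Differentiable ℂ H := hh x₁ (x₂ - x₁)
  have F0 : F 0 ≠ 0 := by
    simp only [hF, zero_smul, add_zero]; exact hx₁
  have H1 : H 1 ≠ 0 := by
    simp only [hH, one_smul, add_sub_cancel]; exact hx₂
  have ev : ∀ᶠ t in nhds (0 : ℂ), F t ≠ 0 :=
    dF.continuous.continuousAt.eventually_ne F0
  have evH : H =ᶠ[nhds (0 : ℂ)] fun _ => (0 : ℂ) := by
    filter_upwards [ev] with t ht
    have := hprod (x₁ + t • (x₂ - x₁))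
    rcases mul_eq_zero.mp this with h' | h'
    · exact absurd h' ht
    · exact h'
  have an : AnalyticOnNhd ℂ H Set.univ := fun z _ =>
    (dH.differentiableOn (s := Set.univ)).analyticAt Filter.univ_mem
  have := an.eqOn_zero_of_preconnected_of_eventuallyEq_zero isPreconnected_univ
    (Set.mem_univ (0 : ℂ)) evH
  exact H1 (this (Set.mem_univ (1 : ℂ)))

end Pool.Agent.L7h49.TH
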